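import Mathlib
import Pool.Agent.N436.DF.Stm3

/-!
# Project DF, third batch, part S3_swap: exchanging two boundary vertices of a closed set
-/

set_option autoImplicit false

namespace Pool.Agent.N671.DF.Swap

open Finset Pool.Agent.N436.DF

section

variable {V : Type} [DecidableEq V]

lemma swp_in (H : Hub V) (Z : Finset V) (a b : V) {u v : V} (hu : u ∈ Z) (hv : v ∈ Z) :
    (swp H Z a b).m u v = H.m u v := by simp [swp, hu, hv]

lemma swp_out (H : Hub V) (Z : Finset V) (a b : V) {u v : V} (hu : u ∉ Z) (hv : v ∉ Z) :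
    (swp H Z a b).m u v = H.m u v := by simp [swp, hu, hv]

lemma swp_io (H : Hub V) (Z : Finset V) (a b : V) {u v : V} (hu : u ∈ Z) (hv : v ∉ Z) :
    (swp H Z a b).m u v = H.m (Equiv.swap a b u) v := by simp [swp, hu, hv]

lemma swp_oi (H : Hub V) (Z : Finset V) (a b : V) {u v : V} (hu : u ∉ Z) (hv : v ∈ Z) :
    (swp H Z a b).m u v = H.m u (Equiv.swap a b v) := by simp [swp, hu, hv]

lemma swap_mem {Z : Finset V} {a b u : V} (ha : a ∈ Z) (hb : b ∈ Z) (hu : u ∈ Z) :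
    Equiv.swap a b u ∈ Z := by
  by_cases h1 : u = a
  · subst h1; simpa using hb
  by_cases h2 : u = b
  · subst h2; simpa using ha
  · rwa [Equiv.swap_apply_of_ne_of_ne h1 h2]

lemma sum_swap {Z : Finset V} {a b : V} (ha : a ∈ Z) (hb : b ∈ Z) (g : V → ℤ) :
    ∑ u ∈ Z, g (Equiv.swap a b u) = ∑ u ∈ Z, g u := by
  refine Finset.sum_nbij' (fun u => Equiv.swap a b u) (fun u => Equiv.swap a b u) ?_ ?_ ?_ ?_ ?_
  · intro u hu; exact swap_mem ha hb hu
  · intro u hu; exact swap_mem ha hb hu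
  · intro u hu; simp
  · intro u hu; simp
  · intro u hu; simp

lemma swp_ok {H : Hub V} (h : Ok P13 H) (Z : Finset V) (a b : V) : Ok P13 (swp H Z a b) where
  c_ge := h.c_ge
  c1_le := h.c1_le
  c2_le := h.c2_le
  r01 := h.r01
  rsymm := h.rsymm
  r0 := h.r0
  m_nn u v := by
    by_cases hu : u ∈ Z <;> by_cases hv : v ∈ Z
    · rw [swp_in H Z a b hu hv]; exact h.m_nn _ _
    · rw [swp_io H Z a b hu hv]; exact h.m_nn _ _
    · rw [swp_oi H Z a b hu hv]; exact h.m_nn _ _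
    · rw [swp_out H Z a b hu hv]; exact h.m_nn _ _
  msymm u v := by
    by_cases hu : u ∈ Z <;> by_cases hv : v ∈ Z
    · rw [swp_in H Z a b hu hv, swp_in H Z a b hv hu]; exact h.msymm _ _
    · rw [swp_io H Z a b hu hv, swp_oi H Z a b hv hu]; exact h.msymm _ _
    · rw [swp_oi H Z a b hu hv, swp_io H Z a b hv hu]; exact h.msymm _ _
    · rw [swp_out H Z a b hu hv, swp_out H Z a b hv hu]; exact h.msymm _ _
  m0 v := by
    by_cases hv : v ∈ Z
    · rw [swp_in H Z a b hv hv]; exact h.m0 _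
    · rw [swp_out H Z a b hv hv]; exact h.m0 _

lemma swp_hp (H : Hub V) (Z Y : Finset V) (a b : V)
    (h : ∀ u ∈ Y, ∀ v ∈ Y, (swp H Z a b).m u v = H.m u v) :
    hp (swp H Z a b) Y = hp H Y := by
  unfold hp rho
  have h1 : ∑ v ∈ Y, wt P13 (swp H Z a b) v = ∑ v ∈ Y, wt P13 H v := rfl
  have h2 : ∑ u ∈ Y, ∑ v ∈ Y, ew P13 (swp H Z a b) u v = ∑ u ∈ Y, ∑ v ∈ Y, ew P13 H u v := by
    refine Finset.sum_congr rfl fun u hu => Finset.sum_congr rfl fun v hv => ?_
    unfold ew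
    rw [h u hu v hv]
    rfl
  rw [h1, h2]

lemma split4 {S Z : Finset V} (hZ : Z ⊆ S) (m : V → V → ℤ) :
    ∑ u ∈ S, ∑ v ∈ S, m u v =
      ((∑ u ∈ S \ Z, ∑ v ∈ S \ Z, m u v) + ∑ u ∈ S \ Z, ∑ v ∈ Z, m u v) +
      ((∑ u ∈ Z, ∑ v ∈ S \ Z, m u v) + ∑ u ∈ Z, ∑ v ∈ Z, m u v) := by
  have h : ∀ u, ∑ v ∈ S, m u v = ∑ v ∈ S \ Z, m u v + ∑ v ∈ Z, m u v :=
    fun u => (Finset.sum_sdiff hZ).symm
  rw [← Finset.sum_sdiff hZ, Finset.sum_congr rfl fun u _ => h u,
    Finset.sum_congr (s₁ := Z) rfl fun u _ => h u, Finset.sum_add_distrib,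
    Finset.sum_add_distrib]

lemma swp_eM (H : Hub V) {S Z : Finset V} {a b : V} (hZ : Z ⊆ S) (ha : a ∈ Z) (hb : b ∈ Z) :
    eM (swp H Z a b) S = eM H S := by
  unfold eM
  rw [split4 hZ, split4 hZ]
  have e1 : ∑ u ∈ S \ Z, ∑ v ∈ S \ Z, (swp H Z a b).m u v = ∑ u ∈ S \ Z, ∑ v ∈ S \ Z, H.m u v :=
    Finset.sum_congr rfl fun u hu => Finset.sum_congr rfl fun v hv =>
      swp_out H Z a b (Finset.mem_sdiff.1 hu).2 (Finset.mem_sdiff.1 hv).2
  have e2 : ∑ u ∈ S \ Z, ∑ v ∈ Z, (swp H Z a b).m u v = ∑ u ∈ S \ Z, ∑ v ∈ Z, H.m u v := by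
    refine Finset.sum_congr rfl fun u hu => ?_
    rw [← sum_swap ha hb (fun v => H.m u v)]
    exact Finset.sum_congr rfl fun v hv => swp_oi H Z a b (Finset.mem_sdiff.1 hu).2 hv
  have e3 : ∑ u ∈ Z, ∑ v ∈ S \ Z, (swp H Z a b).m u v = ∑ u ∈ Z, ∑ v ∈ S \ Z, H.m u v := by
    rw [← sum_swap ha hb (fun u => ∑ v ∈ S \ Z, H.m u v)]
    exact Finset.sum_congr rfl fun u hu => Finset.sum_congr rfl fun v hv =>
      swp_io H Z a b hu (Finset.mem_sdiff.1 hv).2
  have e4 : ∑ u ∈ Z, ∑ v ∈ Z, (swp H Z a b).m u v = ∑ u ∈ Z, ∑ v ∈ Z, H.m u v :=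
    Finset.sum_congr rfl fun u hu => Finset.sum_congr rfl fun v hv => swp_in H Z a b hu hv
  rw [e1, e2, e3, e4]

lemma swp_mm (H : Hub V) {Z D : Finset V} {a b : V} (ha : a ∈ Z) (hb : b ∈ Z)
    (hD : Disjoint D Z) : mm (swp H Z a b) Z D = mm H Z D := by
  unfold mm
  rw [← sum_swap ha hb (fun u => ∑ v ∈ D, H.m u v)]
  exact Finset.sum_congr rfl fun u hu => Finset.sum_congr rfl fun v hv =>
    swp_io H Z a b hu (fun h => (Finset.disjoint_left.1 hD hv h))

omit [DecidableEq V] in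
/-- nonnegative terms of the load -/
lemma term_nn {H : Hub V} (hok : Ok P13 H) {f : V → Bool} {p : V → V → ℤ}
    (hp0 : ∀ u v, 0 ≤ p u v) (u v : V) : 0 ≤ (if f u = f v then H.r u v else p u v) := by
  split_ifs
  · rcases hok.r01 u v with h | h <;> omega
  · exact hp0 u v

lemma mem_bd {H : Hub V} (hok : Ok P13 H) {S Z : Finset V} {u q : V} (hu : u ∈ Z)
    (hq : q ∈ S \ Z) (h : 1 ≤ H.m u q) : u ∈ bd H S Z := by
  unfold bd
  refine Finset.mem_filter.2 ⟨hu, h.trans ?_⟩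
  exact Finset.single_le_sum (f := fun q => H.m u q) (fun i _ => hok.m_nn u i) hq

/-- no colouring -/
lemma swp_ncol (hB : S3_clB) (hg : S3_glue) {H : Hub V} {S Z : Finset V} {a b : V}
    (hC : C3 H S Z) (ha : a ∈ bd H S Z) (hb : b ∈ bd H S Z) : ¬ Col (swp H Z a b) S := by
  rintro ⟨F, P', hF⟩
  obtain ⟨h2S, h1, hmm, hhpQ, h2c, hexc, hone, hprop⟩ := hB V H S Z hC
  have haZ : a ∈ Z := (Finset.mem_filter.1 ha).1
  have hbZ : b ∈ Z := (Finset.mem_filter.1 hb).1
  have hok := hC.mc.ok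
  have hr0 : ∀ x ∈ Z, ∀ q ∈ S \ Z, H.r x q = 0 := by
    intro x hx q hq
    rcases hok.r01 x q with h | h
    · exact h
    · exact absurd ⟨x, hx, q, hq, h⟩ hC.cl
  have hterm := fun u v => term_nn hok (f := F) hF.nn u v
  -- the load in S is the sum of two loads
  have hload : ∀ u, load (swp H Z a b) S F P' u =
      load H (S \ Z) F P' u + load H Z F P' u := by
    intro u
    unfold load
    exact (Finset.sum_sdiff hC.sub).symm
  have hl1 : ∀ u, 0 ≤ load H (S \ Z) F P' u := fun u =>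
    Finset.sum_nonneg fun v _ => hterm u v
  have hl2 : ∀ u, 0 ≤ load H Z F P' u := fun u =>
    Finset.sum_nonneg fun v _ => hterm u v
  have hcap : ∀ u ∈ S, load H (S \ Z) F P' u + load H Z F P' u ≤ H.c (F u) u := by
    intro u hu
    rw [← hload u]
    exact hF.cap u hu
  have hcolZ : ColBy H Z F P' := by
    refine ⟨hF.nn, ?_, ?_⟩
    · intro u hu v hv huv
      have := hF.pay u (hC.sub hu) v (hC.sub hv) huv
      rwa [swp_in H Z a b hu hv] at this
    · intro u hu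
      have := hcap u (hC.sub hu)
      have := hl1 u
      linarith
  have hcolQ : ColBy H (S \ Z) F P' := by
    refine ⟨hF.nn, ?_, ?_⟩
    · intro u hu v hv huv
      have hu' := Finset.mem_sdiff.1 hu
      have hv' := Finset.mem_sdiff.1 hv
      have := hF.pay u hu'.1 v hv'.1 huv
      rwa [swp_out H Z a b hu'.2 hv'.2] at this
    · intro u hu
      have := hcap u (Finset.mem_sdiff.1 hu).1
      have := hl2 u
      linarith
  obtain ⟨⟨x0, hx0, hx0t, hx0u⟩, hsat⟩ := hone F P' hcolZ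
  -- boundary vertices pay nothing outside
  have hpay0 : ∀ u ∈ bd H S Z, ∀ q ∈ S \ Z, F u ≠ F q → P' u q ≤ 0 := by
    intro u hu q hq huq
    have huZ : u ∈ Z := (Finset.mem_filter.1 hu).1
    have h3 := hsat u hu
    have h4 := hcap u (hC.sub huZ)
    have h5 : (if F u = F q then H.r u q else P' u q) ≤ load H (S \ Z) F P' u := by
      unfold load
      exact Finset.single_le_sum (f := fun v => if F u = F v then H.r u v else P' u v)
        (fun i _ => hterm u i) hq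
    rw [if_neg huq] at h5
    linarith
  have hx0' : Equiv.swap a b x0 ∈ bd H S Z := swap_mem ha hb hx0
  obtain ⟨f', p', hf', hf't, hf'f⟩ := hexc _ hx0'
  -- the colours on the boundary
  have hcolor : ∀ u, Equiv.swap a b u ∈ bd H S Z → f' (Equiv.swap a b u) = F u := by
    intro u hu
    have hub : u ∈ bd H S Z := by
      have := swap_mem ha hb hu
      rwa [Equiv.swap_apply_self] at this
    by_cases hux : u = x0
    · subst hux; rw [hf't, hx0t]
    · have h6 : Equiv.swap a b u ≠ Equiv.swap a b x0 := fun h => hux ((Equiv.swap a b).injective h)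
      rw [hf'f _ hu h6]
      cases hFu : F u
      · rfl
      · exact absurd (hx0u u hub hFu) hux
  have hglue := hg V H S Z f' F p' P' (fun _ _ => 0)
    (fun z u' => if f' u' = F z then 0 else H.m u' z) hok hC.sub hf' hcolQ
    (fun _ _ => le_refl 0)
    (fun z x => by
      split_ifs
      · exact le_refl 0
      · exact hok.m_nn x z)
    (fun x hx z hz hxz => by
      rw [if_pos hxz, hr0 x hx z hz]
      exact ⟨le_refl 0, le_refl 0⟩)
    (fun x hx z hz hxz => by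
      rw [if_neg hxz]
      linarith)
    (fun x hx => by
      simp only [Finset.sum_const_zero, add_zero]
      exact hf'.cap x hx)
    (fun z hz => by
      have hz' := Finset.mem_sdiff.1 hz
      refine le_trans ?_ (hcap z hz'.1)
      refine add_le_add (le_refl _) ?_
      rw [← sum_swap haZ hbZ (fun u' => if f' u' = F z then 0 else H.m u' z)]
      unfold load
      refine Finset.sum_le_sum fun u hu => ?_
      by_cases h7 : f' (Equiv.swap a b u) = F z
      · rw [if_pos h7]; exact hterm z u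
      · rw [if_neg h7]
        by_cases h8 : 1 ≤ H.m (Equiv.swap a b u) z
        · have hbu : Equiv.swap a b u ∈ bd H S Z :=
            mem_bd hok (swap_mem haZ hbZ hu) hz h8
          have hub : u ∈ bd H S Z := by
            have := swap_mem ha hb hbu
            rwa [Equiv.swap_apply_self] at this
          rw [hcolor u hbu] at h7
          have h9 := hF.pay u (hC.sub hu) z hz'.1 h7
          rw [swp_io H Z a b hu hz'.2] at h9
          have h10 := hpay0 u hub z hz h7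
          rw [if_neg (fun h => h7 h.symm)]
          linarith
        · have h11 := hok.m_nn (Equiv.swap a b u) z
          have h12 := hterm z u
          linarith [not_le.1 h8])
  obtain ⟨F', P'', hcol, _⟩ := hglue
  exact hC.mc.ncol ⟨F', P'', hcol⟩

/-- sparseness -/
lemma swp_hyp (hb : S3_base) (hB : S3_clB) {H : Hub V} {S Z : Finset V} {a b : V}
    (hC : C3 H S Z) (ha : a ∈ bd H S Z) (hbb : b ∈ bd H S Z) : Hyp P13 (swp H Z a b) S := by
  obtain ⟨h2S, h1, hmm, hhpQ, h2c, hexc, hone, hprop⟩ := hB V H S Z hC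
  have haZ : a ∈ Z := (Finset.mem_filter.1 ha).1
  have hbZ : b ∈ Z := (Finset.mem_filter.1 hbb).1
  have hok := hC.mc.ok
  have hok' := swp_ok hok Z a b
  obtain ⟨_, _, _, _, hb5⟩ := hb V H hok
  obtain ⟨hge2, hge3⟩ := hb5 S hC.mc
  obtain ⟨hb1', hb2', _, _, _⟩ := hb V (swp H Z a b) hok'
  have hr0 : ∀ x ∈ Z, ∀ q ∈ S \ Z, H.r x q = 0 := by
    intro x hx q hq
    rcases hok.r01 x q with h | h
    · exact h
    · exact absurd ⟨x, hx, q, hq, h⟩ hC.cl
  have hin : ∀ Y, Y ⊆ Z → hp (swp H Z a b) Y = hp H Y := fun Y hY =>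
    swp_hp H Z Y a b fun u hu v hv => swp_in H Z a b (hY hu) (hY hv)
  have hout : ∀ Y, Disjoint Y Z → hp (swp H Z a b) Y = hp H Y := fun Y hY =>
    swp_hp H Z Y a b fun u hu v hv => swp_out H Z a b
      (fun h => Finset.disjoint_left.1 hY hu h) (fun h => Finset.disjoint_left.1 hY hv h)
  intro Y hYS hYne
  suffices h : -2 ≤ hp (swp H Z a b) Y by
    rw [hb1']
    have hPb : P13.b = 3 := rfl
    rw [hPb]
    linarith
  have hsplit : Y ∩ Z ∪ Y \ Z = Y := by
    ext x; simp only [Finset.mem_union, Finset.mem_inter, Finset.mem_sdiff]; tauto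
  have hdisj : Disjoint (Y ∩ Z) (Y \ Z) := by
    rw [Finset.disjoint_left]; intro x hx hx'
    exact (Finset.mem_sdiff.1 hx').2 (Finset.mem_inter.1 hx).2
  have hdisjZ : Disjoint (Y \ Z) Z := Finset.sdiff_disjoint
  have hDsub : Y \ Z ⊆ S \ Z := Finset.sdiff_subset_sdiff hYS (le_refl _)
  have hCsub : Y ∩ Z ⊆ Z := Finset.inter_subset_right
  by_cases hCe : Y ∩ Z = ∅
  · have hYd : Disjoint Y Z := Finset.disjoint_iff_inter_eq_empty.2 hCe
    rw [hout Y hYd]
    exact hge2 Y hYS hYne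
  by_cases hDe : Y \ Z = ∅
  · have hYZ : Y ⊆ Z := Finset.sdiff_eq_empty_iff_subset.1 hDe
    rw [hin Y hYZ]
    exact hge2 Y hYS hYne
  have hCne : (Y ∩ Z).Nonempty := Finset.nonempty_iff_ne_empty.2 hCe
  have hDne : (Y \ Z).Nonempty := Finset.nonempty_iff_ne_empty.2 hDe
  have hCS : Y ∩ Z ≠ S := by
    intro h
    apply hC.nS
    exact Finset.Subset.antisymm hC.sub (h ▸ hCsub)
  have h3C := (hge3 (Y ∩ Z) (hCsub.trans hC.sub) hCne hCS).2
  have hform := hb2' (Y ∩ Z) (Y \ Z) hdisj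
  rw [hsplit, hin _ hCsub, hout _ hdisjZ] at hform
  have hrr : rr (swp H Z a b) (Y ∩ Z) (Y \ Z) = 0 := by
    unfold rr
    refine Finset.sum_eq_zero fun x hx => Finset.sum_eq_zero fun z hz => ?_
    exact hr0 x (hCsub hx) z (hDsub hz)
  have hmm1 : mm (swp H Z a b) (Y ∩ Z) (Y \ Z) ≤ mm (swp H Z a b) Z (Y \ Z) := by
    unfold mm
    exact Finset.sum_le_sum_of_subset_of_nonneg hCsub
      fun i _ _ => Finset.sum_nonneg fun j _ => hok'.m_nn i j
  rw [swp_mm H haZ hbZ hdisjZ] at hmm1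
  by_cases hDQ : Y \ Z = S \ Z
  · rw [hDQ] at hform hmm1 hrr
    rw [hrr, hhpQ] at hform
    rw [hmm] at hmm1
    linarith
  · have h5 := hprop (Y \ Z) hDsub hDne hDQ
    rw [hrr] at hform
    linarith

end

theorem swap3 (hb : S3_base) (hB : S3_clB) (hg : S3_glue) : S3_swap := by
  intro V _ H S Z a b hC ha hbb
  have haZ : a ∈ Z := (Finset.mem_filter.1 ha).1
  have hbZ : b ∈ Z := (Finset.mem_filter.1 hbb).1
  have hin : ∀ Y, Y ⊆ Z → hp (swp H Z a b) Y = hp H Y := fun Y hY =>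
    swp_hp H Z Y a b fun u hu v hv => swp_in H Z a b (hY hu) (hY hv)
  have heE : eE (swp H Z a b) S = eE H S := rfl
  have heM : eM (swp H Z a b) S = eM H S := swp_eM H hC.sub haZ hbZ
  refine ⟨⟨⟨swp_ok hC.mc.ok Z a b, swp_hyp hb hB hC ha hbb, swp_ncol hB hg hC ha hbb,
    ?_, ?_, ?_⟩, hC.sub, hC.ne, hC.nS, hC.cl, ?_⟩, hin⟩
  · intro H' S' h1 h2 h3
    exact hC.mc.ih1 H' S' h1 h2 (heE ▸ h3)
  · intro H' S' h1 h2 h3 h4
    exact hC.mc.ih2 H' S' h1 h2 (heE ▸ h3) h4
  · intro H' S' h1 h2 h3 h4 h5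
    exact hC.mc.ih3 H' S' h1 h2 (heE ▸ h3) h4 (heM ▸ h5)
  · rw [hin Z (Finset.Subset.refl Z)]
    exact hC.h3

end Pool.Agent.N671.DF.Swap
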